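import Mathlib

set_option autoImplicit false

namespace Pool.Agent.Results.MP_5b81a6_nt.LiouvilleTrott

open Filter Topology

/-- The `k`-th decimal digit of `x` for `k ≥ 1`: the last digit of the integer part of `10^k x`. -/
noncomputable def digit (x : ℝ) (k : ℕ) : ℕ := ⌊(10 : ℝ) ^ k * x⌋₊ % 10

/-- Numerators of the convergents: `p_0 = 0`, `p_1 = ε_1 p_0 + p_{-1} = 1`,
`p_{n+2} = ε_{n+2} p_{n+1} + p_n`. -/
def num (ε : ℕ → ℕ) : ℕ → ℕ
  | 0 => 0
  | 1 => 1
  | n + 2 => ε (n + 2) * num ε (n + 1) + num ε n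

/-- Denominators of the convergents: `q_0 = 1`, `q_1 = ε_1 q_0 + q_{-1} = ε_1`,
`q_{n+2} = ε_{n+2} q_{n+1} + q_n`. -/
def den (ε : ℕ → ℕ) : ℕ → ℕ
  | 0 => 1
  | 1 => ε 1
  | n + 2 => ε (n + 2) * den ε (n + 1) + den ε n

/-- `x` is self-describing: `x` lies in `(0,1)` and the continued fraction whose partial
denominators are the decimal digits of `x` (zero digits allowed) converges to `x`, i.e.
`p_n / q_n` tends to `x` along the `n` with `q_n ≠ 0`. -/
def SelfDescribing (x : ℝ) : Prop :=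
  0 < x ∧ x < 1 ∧
    Tendsto (fun n => (num (digit x) n : ℝ) / (den (digit x) n : ℝ))
      (atTop ⊓ 𝓟 {n | den (digit x) n ≠ 0}) (𝓝 x)

/-- The remainders `u_{n-1}`. -/
noncomputable def U (e : ℕ → ℕ) : ℕ → ℝ → ℝ
  | 0, _ => 1
  | 1, x => x
  | n + 2, x => U e n x - (e (n + 1) : ℝ) * U e (n + 1) x

/-- integer formed by the first `n` digits -/
def pre (e : ℕ → ℕ) : ℕ → ℕ
  | 0 => 0
  | n + 1 => 10 * pre e n + e (n + 1)

theorem U_eq (e : ℕ → ℕ) (x : ℝ) : ∀ n, U e (n + 1) x = (-1) ^ n * (x * den e n - num e n)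
  | 0 => by simp [U, den, num]
  | 1 => by simp [U, den, num]; ring
  | n + 2 => by
    have h1 := U_eq e x n
    have h2 := U_eq e x (n + 1)
    rw [U, h1, h2, den, num]
    push_cast
    ring

theorem U_det (e : ℕ → ℕ) (x : ℝ) : ∀ n,
    U e (n + 1) x * den e (n + 1) + U e (n + 2) x * den e n = 1
  | 0 => by simp [U, den]; ring
  | n + 1 => by
    have h := U_det e x n
    have h3 : U e (n + 1 + 2) x = U e (n + 1) x - (e (n + 2) : ℝ) * U e (n + 2) x := rfl
    rw [h3, den]
    push_cast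
    rw [show n + 1 + 1 = n + 2 from rfl]
    linear_combination h

theorem U_congr (e e' : ℕ → ℕ) (x : ℝ) : ∀ n, (∀ k < n, e k = e' k) → U e n x = U e' n x
  | 0, _ => rfl
  | 1, _ => rfl
  | n + 2, h => by
    rw [U, U, U_congr e e' x n (fun k hk => h k (by omega)),
      U_congr e e' x (n + 1) (fun k hk => h k (by omega)), h (n + 1) (by omega)]

theorem pre_congr (e e' : ℕ → ℕ) : ∀ n, (∀ k ≤ n, e k = e' k) → pre e n = pre e' n
  | 0, _ => rfl
  | n + 1, h => by
    rw [pre, pre, pre_congr e e' n (fun k hk => h k (by omega)), h (n + 1) le_rfl]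

theorem U_back (e : ℕ → ℕ) (x : ℝ) (m : ℕ) (h1 : 0 < U e m x) (h2 : 0 < U e (m + 1) x) :
    ∀ n, n ≤ m + 1 → 0 < U e n x := by
  have key : ∀ j, j ≤ m → 0 < U e (m - j) x ∧ 0 < U e (m - j + 1) x := by
    intro j
    induction j with
    | zero => intro _; exact ⟨h1, h2⟩
    | succ j ih =>
      intro hj
      obtain ⟨a, b⟩ := ih (by omega)
      obtain ⟨t, ht⟩ : ∃ t, m - j = t + 1 := ⟨m - j - 1, by omega⟩
      have ht' : m - (j + 1) = t := by omega
      rw [ht] at a b
      rw [ht']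
      refine ⟨?_, a⟩
      have h3 : U e (t + 1 + 1) x = U e t x - (e (t + 1) : ℝ) * U e (t + 1) x := rfl
      have : U e t x = U e (t + 1 + 1) x + (e (t + 1) : ℝ) * U e (t + 1) x := by rw [h3]; ring
      rw [this]; positivity
  intro n hn
  rcases Nat.lt_or_ge n (m + 1) with h | h
  · have := (key (m - n) (by omega)).1
    rwa [show m - (m - n) = n by omega] at this
  · rw [show n = m + 1 by omega]; exact h2

theorem U_zeros (e : ℕ → ℕ) (x : ℝ) (n : ℕ) (h : ∀ k, n < k → e k = 0) : ∀ i,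
    U e (n + 2 * i) x = U e n x ∧ U e (n + 2 * i + 1) x = U e (n + 1) x := by
  intro i
  induction i with
  | zero => simp
  | succ i ih =>
    have h1 : U e (n + 2 * i + 2) x =
        U e (n + 2 * i) x - (e (n + 2 * i + 1) : ℝ) * U e (n + 2 * i + 1) x := rfl
    have h2 : U e (n + 2 * i + 1 + 2) x =
        U e (n + 2 * i + 1) x - (e (n + 2 * i + 1 + 1) : ℝ) * U e (n + 2 * i + 1 + 1) x := rfl
    rw [show n + 2 * (i + 1) = n + 2 * i + 2 by ring]
    rw [h (n + 2 * i + 1) (by omega)] at h1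
    rw [h (n + 2 * i + 1 + 1) (by omega)] at h2
    refine ⟨by rw [h1, ih.1]; simp, ?_⟩
    rw [show n + 2 * i + 2 + 1 = n + 2 * i + 1 + 2 by ring, h2, ih.2]; simp

theorem pre_zeros (e : ℕ → ℕ) (n : ℕ) (h : ∀ k, n < k → e k = 0) : ∀ i,
    pre e (n + i) = 10 ^ i * pre e n := by
  intro i
  induction i with
  | zero => simp
  | succ i ih => rw [← add_assoc, pre, ih, h (n + i + 1) (by omega)]; ring

theorem den_pos (e : ℕ → ℕ) (h1 : e 1 = 1) : ∀ n, 1 ≤ den e n
  | 0 => le_rfl
  | 1 => by rw [den, h1]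
  | n + 2 => by rw [den]; have := den_pos e h1 n; omega

theorem den_growth (e : ℕ → ℕ) (h1 : e 1 = 1) (hinf : ∀ K, ∃ n, K < n ∧ 1 ≤ e n) :
    Tendsto (fun n => den e n + den e (n + 1)) atTop atTop := by
  have hstep : ∀ n, den e n + den e (n + 1) + e (n + 2) ≤ den e (n + 1) + den e (n + 1 + 1) := by
    intro n
    have h2 : den e (n + 1 + 1) = e (n + 2) * den e (n + 1) + den e n := rfl
    have h3 := den_pos e h1 (n + 1)
    rw [h2]; nlinarith
  have hmono : Monotone (fun n => den e n + den e (n + 1)) :=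
    monotone_nat_of_le_succ (fun n => by have := hstep n; omega)
  refine tendsto_atTop_atTop_of_monotone hmono ?_
  intro b
  induction b with
  | zero => exact ⟨0, Nat.zero_le _⟩
  | succ b ih =>
    obtain ⟨n, hn⟩ := ih
    obtain ⟨m, hm, hm1⟩ := hinf (n + 2)
    obtain ⟨t, rfl⟩ : ∃ t, m = t + 2 := ⟨m - 2, by omega⟩
    refine ⟨t + 1, ?_⟩
    have h3 : den e n + den e (n + 1) ≤ den e t + den e (t + 1) := hmono (show n ≤ t by omega)
    have h4 := hstep t
    show b + 1 ≤ den e (t + 1) + den e (t + 1 + 1)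
    omega

theorem cf_tendsto (e : ℕ → ℕ) (h1 : e 1 = 1) (hinf : ∀ K, ∃ n, K < n ∧ 1 ≤ e n) (x : ℝ)
    (hU : ∀ n, 0 < U e n x) :
    Tendsto (fun n => (num e n : ℝ) / (den e n : ℝ)) atTop (𝓝 x) := by
  have hden : ∀ n, (1 : ℝ) ≤ den e n := fun n => by exact_mod_cast den_pos e h1 n
  have hb : ∀ n, |(num e n : ℝ) / (den e n : ℝ) - x| ≤
      1 / ((den e n + den e (n + 1) : ℕ) - 1 : ℝ) := by
    intro n
    have h2 := U_eq e x n
    have h3 := U_det e x n
    have hd := hden n
    have hd1 := hden (n + 1)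
    have hp1 := hU (n + 1)
    have hp2 := hU (n + 2)
    have habs : |(num e n : ℝ) / (den e n : ℝ) - x| = U e (n + 1) x / den e n := by
      have h4 : (num e n : ℝ) / (den e n : ℝ) - x = -(x * den e n - num e n) / den e n := by
        field_simp; ring
      rw [h4, abs_div, abs_neg, abs_of_pos (by linarith : (0 : ℝ) < den e n)]
      congr 1
      rw [← abs_of_pos hp1, h2, abs_mul, abs_pow, abs_neg, abs_one, one_pow, one_mul]
    rw [habs]
    have hU1 : U e (n + 1) x * den e (n + 1) ≤ 1 := by nlinarith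
    push_cast
    have hq : (den e n : ℝ) + den e (n + 1) - 1 ≤ den e n * den e (n + 1) := by nlinarith
    rw [div_le_div_iff₀ (by linarith) (by linarith)]
    nlinarith
  have hlim : Tendsto (fun n => 1 / ((den e n + den e (n + 1) : ℕ) - 1 : ℝ)) atTop (𝓝 0) := by
    have h5 : Tendsto (fun n => ((den e n + den e (n + 1) : ℕ) : ℝ)) atTop atTop :=
      tendsto_natCast_atTop_atTop.comp (den_growth e h1 hinf)
    have h6 : Tendsto (fun n => ((den e n + den e (n + 1) : ℕ) - 1 : ℝ)) atTop atTop :=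
      tendsto_atTop_add_const_right _ (-1) h5
    have h8 := h6.inv_tendsto_atTop
    refine h8.congr (fun n => ?_)
    simp only [Pi.inv_apply, one_div]
  have h7 : Tendsto (fun n => (num e n : ℝ) / (den e n : ℝ) - x) atTop (𝓝 0) :=
    squeeze_zero_norm (fun n => by simpa using hb n) (by simpa using hlim)
  simpa using h7.add_const x

/-- A digit sequence with infinitely many digits different from `9` is the digit sequence of
a real number. -/
theorem exists_real (e : ℕ → ℕ) (h0 : e 0 = 0) (h9 : ∀ k, e k ≤ 9)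
    (hinf : ∀ n, ∃ m, n < m ∧ e m ≤ 8) :
    ∃ x : ℝ, (∀ n, (pre e n : ℝ) / 10 ^ n ≤ x ∧ x < ((pre e n : ℝ) + 1) / 10 ^ n) ∧
      digit x = e := by
  set f : ℕ → ℝ := fun n => (pre e n : ℝ) / 10 ^ n with hf
  set g : ℕ → ℝ := fun n => ((pre e n : ℝ) + 1) / 10 ^ n with hg
  have hfm : Monotone f := by
    refine monotone_nat_of_le_succ (fun n => ?_)
    simp only [hf, pre]
    rw [div_le_div_iff₀ (by positivity) (by positivity)]
    push_cast
    have : (0 : ℝ) ≤ 10 ^ n * e (n + 1) := by positivity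
    rw [pow_succ]; nlinarith
  have hgs : ∀ n, g (n + 1) ≤ g n ∧ (e (n + 1) ≤ 8 → g (n + 1) < g n) := by
    intro n
    simp only [hg, pre]
    have h10 : (0 : ℝ) < 10 ^ n := by positivity
    constructor
    · rw [div_le_div_iff₀ (by positivity) (by positivity)]
      push_cast
      have : (e (n + 1) : ℝ) ≤ 9 := by exact_mod_cast h9 (n + 1)
      rw [pow_succ]; nlinarith
    · intro h8
      rw [div_lt_div_iff₀ (by positivity) (by positivity)]
      push_cast
      have : (e (n + 1) : ℝ) ≤ 8 := by exact_mod_cast h8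
      rw [pow_succ]; nlinarith
  have hga : Antitone g := antitone_nat_of_succ_le (fun n => (hgs n).1)
  have hfg : f ≤ g := by
    intro n
    simp only [hf, hg]
    gcongr
    linarith
  have hmem := Monotone.ciSup_mem_iInter_Icc_of_antitone hfm hga hfg
  set x := ⨆ n, f n with hx
  have hx1 : ∀ n, f n ≤ x ∧ x ≤ g n := fun n => by
    have := Set.mem_iInter.mp hmem n
    exact ⟨this.1, this.2⟩
  have hx2 : ∀ n, x < g n := by
    intro n
    obtain ⟨m, hm, h8⟩ := hinf n
    obtain ⟨t, rfl⟩ : ∃ t, m = t + 1 := ⟨m - 1, by omega⟩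
    calc x ≤ g (t + 1) := (hx1 _).2
      _ < g t := (hgs t).2 h8
      _ ≤ g n := hga (by omega)
  refine ⟨x, fun n => ⟨(hx1 n).1, hx2 n⟩, ?_⟩
  have hfl : ∀ n, ⌊(10 : ℝ) ^ n * x⌋₊ = pre e n := by
    intro n
    have h10 : (0 : ℝ) < 10 ^ n := by positivity
    have ha := (hx1 n).1
    have hb := hx2 n
    simp only [hf, hg] at ha hb
    rw [div_le_iff₀ h10] at ha
    rw [lt_div_iff₀ h10] at hb
    have hx0 : (0 : ℝ) ≤ 10 ^ n * x := le_trans (Nat.cast_nonneg (pre e n)) (by linarith)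
    exact (Nat.floor_eq_iff hx0).mpr ⟨by linarith, by linarith⟩
  funext k
  rw [digit, hfl]
  cases k with
  | zero => simp [pre, h0]
  | succ k => rw [pre]; have := h9 (k + 1); omega


/-- The digits of the required beginning `0.1084101512`. -/
def base (k : ℕ) : ℕ := [0, 1, 0, 8, 4, 1, 0, 1, 5, 1, 2].getD k 0

/-- A stage of the construction. -/
structure St where
  e : ℕ → ℕ
  n : ℕ
  hn : 10 ≤ n
  hbase : ∀ k ≤ 10, e k = base k
  small : ∀ k, 10 < k → e k ≤ 1
  zero : ∀ k, n < k → e k = 0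
  good : ∀ x : ℝ, (pre e n : ℝ) / 10 ^ n ≤ x → x ≤ ((pre e n : ℝ) + 1) / 10 ^ n →
    0 < U e n x ∧ 0 < U e (n + 1) x

theorem base_zero (k : ℕ) (hk : 10 < k) : base k = 0 := by
  rw [base, List.getD_eq_default]
  exact hk

theorem pre_base : pre base 10 = 1084101512 := by decide

/-- The first stage. -/
def s0 : St where
  e := base
  n := 10
  hn := le_rfl
  hbase := fun _ _ => rfl
  small := fun k hk => by rw [base_zero k hk]; exact Nat.zero_le _
  zero := fun k hk => base_zero k hk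
  good := by
    intro x h1 h2
    rw [pre_base] at h1 h2
    have e9 := U_eq base x 9
    have e10 := U_eq base x 10
    have a1 : num base 9 = 58 := by decide
    have a2 : den base 9 = 535 := by decide
    have a3 : num base 10 = 165 := by decide
    have a4 : den base 10 = 1522 := by decide
    rw [a1, a2] at e9
    rw [a3, a4] at e10
    norm_num at h1 h2 e9 e10
    rw [e9, e10]
    constructor <;> linarith

/-- The digits after adding a digit `1` at the position `n'`. -/
def ext (e : ℕ → ℕ) (n' : ℕ) : ℕ → ℕ := fun k => if k = n' then 1 else e k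

theorem ext_ne (e : ℕ → ℕ) (n' k : ℕ) (h : k ≠ n') : ext e n' k = e k := by
  simp [ext, h]

theorem ext_self (e : ℕ → ℕ) (n' : ℕ) : ext e n' n' = 1 := by
  simp [ext]

theorem pre_ext (s : St) (m : ℕ) :
    pre (ext s.e (s.n + m + 1)) (s.n + m + 1) = 10 ^ (m + 1) * pre s.e s.n + 1 := by
  rw [pre, ext_self, pre_congr (ext s.e (s.n + m + 1)) s.e (s.n + m)
    (fun k hk => ext_ne _ _ _ (by omega)), pre_zeros s.e s.n s.zero m]
  ring

/-- The extension lemma. -/
theorem extend (s : St) (B : ℕ) : ∃ M, B ≤ M ∧ ∀ j : ℕ,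
    ∀ x : ℝ, (pre (ext s.e (s.n + (M + 2 * j) + 1)) (s.n + (M + 2 * j) + 1) : ℝ) /
        10 ^ (s.n + (M + 2 * j) + 1) ≤ x →
      x ≤ ((pre (ext s.e (s.n + (M + 2 * j) + 1)) (s.n + (M + 2 * j) + 1) : ℝ) + 1) /
        10 ^ (s.n + (M + 2 * j) + 1) →
      0 < U (ext s.e (s.n + (M + 2 * j) + 1)) (s.n + (M + 2 * j) + 1) x ∧
      0 < U (ext s.e (s.n + (M + 2 * j) + 1)) (s.n + (M + 2 * j) + 1 + 1) x := by
  obtain ⟨k, hk⟩ : ∃ k, s.n = k + 1 := ⟨s.n - 1, by have := s.hn; omega⟩
  have he1 : s.e 1 = 1 := by rw [s.hbase 1 (by norm_num)]; rfl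
  set A : ℝ := (pre s.e s.n : ℝ) with hA
  set a : ℝ := A / 10 ^ s.n with ha
  set C : ℝ := (den s.e k : ℝ) + den s.e (k + 1) with hC
  set G : ℝ := (num s.e k : ℝ) + num s.e (k + 1) with hG
  have hC0 : 0 < C := by
    have h1 : (1 : ℝ) ≤ den s.e k := by exact_mod_cast den_pos s.e he1 k
    have h2 : (1 : ℝ) ≤ den s.e (k + 1) := by exact_mod_cast den_pos s.e he1 (k + 1)
    linarith
  have hD : ∀ x, U s.e s.n x - U s.e (s.n + 1) x = (-1) ^ k * (x * C - G) := by
    intro x
    rw [hk, U_eq, U_eq, hC, hG]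
    ring
  -- the sign of `U n - U (n+1)` to the right of `a`
  have hsign : ∃ δ : ℝ, 0 < δ ∧ ∃ σ : ℝ, (σ = 1 ∨ σ = -1) ∧
      ∀ x, a < x → x ≤ a + δ → 0 < σ * (U s.e s.n x - U s.e (s.n + 1) x) := by
    have hpk : ((-1 : ℝ) ^ k = 1) ∨ ((-1 : ℝ) ^ k = -1) := neg_one_pow_eq_or ℝ k
    rcases le_or_gt G (a * C) with h | h
    · refine ⟨1, one_pos, (-1) ^ k, hpk, fun x hx _ => ?_⟩
      rw [hD]
      have h2 : 0 < x * C - G := by nlinarith
      have h3 : ((-1 : ℝ) ^ k) * ((-1) ^ k) = 1 := by rw [← mul_pow]; norm_num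
      calc (0 : ℝ) < x * C - G := h2
        _ = ((-1 : ℝ) ^ k) * ((-1) ^ k) * (x * C - G) := by rw [h3, one_mul]
        _ = (-1) ^ k * ((-1) ^ k * (x * C - G)) := by ring
    · refine ⟨(G - a * C) / (2 * C), div_pos (by linarith) (by linarith), -(-1) ^ k, ?_,
        fun x _ hx => ?_⟩
      · rcases hpk with h1 | h1
        · right; rw [h1]
        · left; rw [h1]; norm_num
      · rw [hD]
        have h2 : x * C - G < 0 := by
          have h4 : x * C ≤ (a + (G - a * C) / (2 * C)) * C :=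
            mul_le_mul_of_nonneg_right hx hC0.le
          have h5 : (a + (G - a * C) / (2 * C)) * C = a * C + (G - a * C) / 2 := by
            field_simp
          linarith
        have h3 : ((-1 : ℝ) ^ k) * ((-1) ^ k) = 1 := by rw [← mul_pow]; norm_num
        calc (0 : ℝ) < -(x * C - G) := by linarith
          _ = -(((-1 : ℝ) ^ k) * ((-1) ^ k) * (x * C - G)) := by rw [h3, one_mul]
          _ = -(-1) ^ k * ((-1) ^ k * (x * C - G)) := by ring
  obtain ⟨δ, hδ, σ, hσ, hs⟩ := hsign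
  obtain ⟨N, hN⟩ : ∃ N : ℕ, (2 : ℝ) / 10 ^ N ≤ δ := by
    obtain ⟨N, hN⟩ := exists_pow_lt_of_lt_one (show (0 : ℝ) < δ / 2 by positivity)
      (show (1 / 10 : ℝ) < 1 by norm_num)
    refine ⟨N, ?_⟩
    rw [one_div, inv_pow] at hN
    rw [div_eq_mul_inv]
    linarith
  -- main computation
  have main : ∀ m : ℕ, N ≤ m → ∀ x : ℝ,
      (pre (ext s.e (s.n + m + 1)) (s.n + m + 1) : ℝ) / 10 ^ (s.n + m + 1) ≤ x →
      x ≤ ((pre (ext s.e (s.n + m + 1)) (s.n + m + 1) : ℝ) + 1) / 10 ^ (s.n + m + 1) →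
      (0 < U s.e s.n x ∧ 0 < U s.e (s.n + 1) x) ∧
      0 < σ * (U s.e s.n x - U s.e (s.n + 1) x) := by
    intro m hm x hx1 hx2
    rw [pre_ext] at hx1 hx2
    push_cast at hx1 hx2
    rw [← hA] at hx1 hx2
    have hP : (0 : ℝ) < 10 ^ s.n := by positivity
    have hQ : (0 : ℝ) < 10 ^ (m + 1) := by positivity
    have hPQ : (10 : ℝ) ^ (s.n + m + 1) = 10 ^ s.n * 10 ^ (m + 1) := by
      rw [add_assoc, pow_add]
    have e1 : ((10 : ℝ) ^ (m + 1) * A + 1) / 10 ^ (s.n + m + 1) = a + 1 / 10 ^ (s.n + m + 1) := by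
      rw [hPQ, ha]; field_simp
    have e2 : ((10 : ℝ) ^ (m + 1) * A + 1 + 1) / 10 ^ (s.n + m + 1) =
        a + 2 / 10 ^ (s.n + m + 1) := by
      rw [hPQ, ha]; field_simp; ring
    rw [e1] at hx1
    rw [e2] at hx2
    have hpos : (0 : ℝ) < 1 / 10 ^ (s.n + m + 1) := by positivity
    have hlt : (2 : ℝ) / 10 ^ (s.n + m + 1) ≤ 2 / 10 ^ N := by
      apply div_le_div_of_nonneg_left (by norm_num) (by positivity)
      exact pow_le_pow_right₀ (by norm_num) (by omega)
    have hlt2 : (2 : ℝ) / 10 ^ (s.n + m + 1) ≤ 1 / 10 ^ s.n := by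
      rw [hPQ, div_le_div_iff₀ (by positivity) hP]
      have h10 : (10 : ℝ) ≤ 10 ^ (m + 1) := by
        calc (10 : ℝ) = 10 ^ 1 := by norm_num
          _ ≤ 10 ^ (m + 1) := pow_le_pow_right₀ (by norm_num) (by omega)
      nlinarith
    have hg := s.good x (by rw [← hA, ← ha]; linarith)
      (by rw [← hA, add_div, ← ha]; linarith)
    exact ⟨hg, hs x (by linarith) (by linarith)⟩
  rcases hσ with h1 | h1
  · -- even number of zeros
    refine ⟨2 * (B + N), by omega, fun j x hx1 hx2 => ?_⟩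
    obtain ⟨⟨hg1, hg2⟩, hg3⟩ := main (2 * (B + N) + 2 * j) (by omega) x hx1 hx2
    rw [h1, one_mul] at hg3
    have hz := U_zeros s.e x s.n s.zero (B + N + j)
    have em : s.n + (2 * (B + N) + 2 * j) = s.n + 2 * (B + N + j) := by ring
    have c1 : U (ext s.e (s.n + (2 * (B + N) + 2 * j) + 1)) (s.n + (2 * (B + N) + 2 * j) + 1) x =
        U s.e (s.n + 1) x := by
      rw [U_congr _ s.e x _ (fun k hk => ext_ne _ _ _ (by omega)), em]; exact hz.2
    have c2 : U (ext s.e (s.n + (2 * (B + N) + 2 * j) + 1)) (s.n + (2 * (B + N) + 2 * j)) x =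
        U s.e s.n x := by
      rw [U_congr _ s.e x _ (fun k hk => ext_ne _ _ _ (by omega)), em]; exact hz.1
    refine ⟨by rw [c1]; exact hg2, ?_⟩
    have c3 : U (ext s.e (s.n + (2 * (B + N) + 2 * j) + 1))
        (s.n + (2 * (B + N) + 2 * j) + 1 + 1) x =
        U (ext s.e (s.n + (2 * (B + N) + 2 * j) + 1)) (s.n + (2 * (B + N) + 2 * j)) x -
        (ext s.e (s.n + (2 * (B + N) + 2 * j) + 1) (s.n + (2 * (B + N) + 2 * j) + 1) : ℝ) *
        U (ext s.e (s.n + (2 * (B + N) + 2 * j) + 1)) (s.n + (2 * (B + N) + 2 * j) + 1) x := rfl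
    rw [c3, c1, c2, ext_self]
    push_cast
    linarith
  · -- odd number of zeros
    refine ⟨2 * (B + N) + 1, by omega, fun j x hx1 hx2 => ?_⟩
    obtain ⟨⟨hg1, hg2⟩, hg3⟩ := main (2 * (B + N) + 1 + 2 * j) (by omega) x hx1 hx2
    rw [h1] at hg3
    have hz := U_zeros s.e x s.n s.zero (B + N + j)
    have hz' := U_zeros s.e x s.n s.zero (B + N + j + 1)
    have em : s.n + (2 * (B + N) + 1 + 2 * j) = s.n + 2 * (B + N + j) + 1 := by ring
    have em' : s.n + (2 * (B + N) + 1 + 2 * j) + 1 = s.n + 2 * (B + N + j + 1) := by ring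
    have c1 : U (ext s.e (s.n + (2 * (B + N) + 1 + 2 * j) + 1))
        (s.n + (2 * (B + N) + 1 + 2 * j) + 1) x = U s.e s.n x := by
      rw [U_congr _ s.e x _ (fun k hk => ext_ne _ _ _ (by omega)), em']; exact hz'.1
    have c2 : U (ext s.e (s.n + (2 * (B + N) + 1 + 2 * j) + 1))
        (s.n + (2 * (B + N) + 1 + 2 * j)) x = U s.e (s.n + 1) x := by
      rw [U_congr _ s.e x _ (fun k hk => ext_ne _ _ _ (by omega)), em]; exact hz.2
    refine ⟨by rw [c1]; exact hg1, ?_⟩
    have c3 : U (ext s.e (s.n + (2 * (B + N) + 1 + 2 * j) + 1))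
        (s.n + (2 * (B + N) + 1 + 2 * j) + 1 + 1) x =
        U (ext s.e (s.n + (2 * (B + N) + 1 + 2 * j) + 1)) (s.n + (2 * (B + N) + 1 + 2 * j)) x -
        (ext s.e (s.n + (2 * (B + N) + 1 + 2 * j) + 1) (s.n + (2 * (B + N) + 1 + 2 * j) + 1) : ℝ) *
        U (ext s.e (s.n + (2 * (B + N) + 1 + 2 * j) + 1))
          (s.n + (2 * (B + N) + 1 + 2 * j) + 1) x := rfl
    rw [c3, c1, c2, ext_self]
    push_cast
    linarith


/-- The number of zeros used at stage `i`. -/
noncomputable def Mz (s : St) (i : ℕ) : ℕ := (extend s (s.n * i + 5)).choose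

theorem Mz_ge (s : St) (i : ℕ) : s.n * i + 5 ≤ Mz s i := (extend s (s.n * i + 5)).choose_spec.1

/-- The next stage; `j` is a free choice. -/
noncomputable def nxt (s : St) (i j : ℕ) : St where
  e := ext s.e (s.n + (Mz s i + 2 * j) + 1)
  n := s.n + (Mz s i + 2 * j) + 1
  hn := by have := s.hn; omega
  hbase := fun k hk => by
    have := s.hn
    rw [ext_ne _ _ _ (by omega)]; exact s.hbase k hk
  small := fun k hk => by
    unfold ext
    split_ifs
    · exact le_rfl
    · exact s.small k hk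
  zero := fun k hk => by
    rw [ext_ne _ _ _ (by omega)]; exact s.zero k (by omega)
  good := (extend s (s.n * i + 5)).choose_spec.2 j

/-- The stages along the branch `α`. -/
noncomputable def st (α : Set ℕ) : ℕ → St
  | 0 => s0
  | i + 1 => nxt (st α i) i (α.indicator 1 i)

theorem st_n_lt (α : Set ℕ) (i : ℕ) : (st α i).n < (st α (i + 1)).n := by
  show (st α i).n < (st α i).n + (Mz (st α i) i + 2 * (α.indicator 1 i)) + 1
  omega

theorem st_n_mono (α : Set ℕ) : StrictMono (fun i => (st α i).n) :=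
  strictMono_nat_of_lt_succ (st_n_lt α)

theorem st_n_ge (α : Set ℕ) (i : ℕ) : i ≤ (st α i).n := (st_n_mono α).le_apply

theorem st_stable (α : Set ℕ) (i : ℕ) : ∀ d k, k ≤ (st α i).n →
    (st α (i + d)).e k = (st α i).e k := by
  intro d
  induction d with
  | zero => intro k _; rfl
  | succ d ih =>
    intro k hk
    have h1 : (st α i).n ≤ (st α (i + d)).n := (st_n_mono α).monotone (by omega)
    have h2 : (st α (i + (d + 1))).e k = (st α (i + d)).e k := by
      show ext (st α (i + d)).e ((st α (i + d)).n + (Mz (st α (i + d)) (i + d) +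
        2 * (α.indicator 1 (i + d))) + 1) k = _
      exact ext_ne _ _ _ (by omega)
    rw [h2, ih k hk]

/-- The limit digit sequence. -/
noncomputable def lim (α : Set ℕ) (k : ℕ) : ℕ := (st α k).e k

theorem lim_eq (α : Set ℕ) (i k : ℕ) (hk : k ≤ (st α i).n) : lim α k = (st α i).e k := by
  rcases Nat.le_total i k with h | h
  · obtain ⟨d, rfl⟩ := Nat.exists_eq_add_of_le h
    exact st_stable α i d _ hk
  · obtain ⟨d, hd⟩ := Nat.exists_eq_add_of_le h
    have := st_stable α k d k (st_n_ge α k)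
    rw [← hd] at this
    exact this.symm

theorem lim_base (α : Set ℕ) (k : ℕ) (hk : k ≤ 10) : lim α k = base k := by
  rw [lim_eq α 0 k hk]; rfl

theorem lim_small (α : Set ℕ) (k : ℕ) (hk : 10 < k) : lim α k ≤ 1 := (st α k).small k hk

theorem lim_le (α : Set ℕ) (k : ℕ) : lim α k ≤ 9 := by
  rcases Nat.lt_or_ge 10 k with h | h
  · exact (lim_small α k h).trans (by norm_num)
  · rw [lim_base α k h]
    interval_cases k <;> decide

theorem lim_one (α : Set ℕ) (i : ℕ) : lim α (st α (i + 1)).n = 1 := by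
  rw [lim_eq α (i + 1) _ le_rfl]
  show ext (st α i).e ((st α i).n + (Mz (st α i) i + 2 * (α.indicator 1 i)) + 1)
    ((st α i).n + (Mz (st α i) i + 2 * (α.indicator 1 i)) + 1) = 1
  exact ext_self _ _

theorem exists_x (α : Set ℕ) : ∃ x : ℝ,
    (∀ n, (pre (lim α) n : ℝ) / 10 ^ n ≤ x ∧ x < ((pre (lim α) n : ℝ) + 1) / 10 ^ n) ∧
      digit x = lim α :=
  exists_real (lim α) (by rw [lim_base α 0 (by norm_num)]; rfl) (lim_le α)
    (fun n => ⟨n + 11, by omega, (lim_small α _ (by omega)).trans (by norm_num)⟩)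

/-- The number attached to the branch `α`. -/
noncomputable def X (α : Set ℕ) : ℝ := (exists_x α).choose

theorem X_spec (α : Set ℕ) :
    (∀ n, (pre (lim α) n : ℝ) / 10 ^ n ≤ X α ∧ X α < ((pre (lim α) n : ℝ) + 1) / 10 ^ n) ∧
      digit (X α) = lim α := (exists_x α).choose_spec

theorem X_pos (α : Set ℕ) (n : ℕ) : 0 < U (lim α) n (X α) := by
  obtain ⟨i, hi⟩ : ∃ i, n ≤ (st α i).n + 1 := ⟨n, by have := st_n_ge α n; omega⟩
  have hpre : pre (lim α) (st α i).n = pre (st α i).e (st α i).n :=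
    pre_congr _ _ _ (fun k hk => lim_eq α i k hk)
  have hx := (X_spec α).1 (st α i).n
  rw [hpre] at hx
  have hg := (st α i).good (X α) hx.1 hx.2.le
  have c1 : U (lim α) (st α i).n (X α) = U (st α i).e (st α i).n (X α) :=
    U_congr _ _ _ _ (fun k hk => lim_eq α i k (by omega))
  have c2 : U (lim α) ((st α i).n + 1) (X α) = U (st α i).e ((st α i).n + 1) (X α) :=
    U_congr _ _ _ _ (fun k hk => lim_eq α i k (by omega))
  exact U_back (lim α) (X α) (st α i).n (by rw [c1]; exact hg.1) (by rw [c2]; exact hg.2) n hi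

theorem X_self (α : Set ℕ) : SelfDescribing (X α) := by
  obtain ⟨h1, h2⟩ := X_spec α
  have hpos : 0 < X α := X_pos α 1
  have hlt : X α < 1 := by
    have h3 := (h1 1).2
    have h4 : pre (lim α) 1 = 1 := by
      rw [pre, pre, lim_base α 1 (by norm_num)]; rfl
    rw [h4] at h3
    norm_num at h3
    linarith
  refine ⟨hpos, hlt, ?_⟩
  rw [h2]
  refine Tendsto.mono_left (cf_tendsto (lim α) (by rw [lim_base α 1 (by norm_num)]; rfl)
    (fun K => ⟨(st α (K + 1)).n, ?_, by rw [lim_one]⟩) (X α) (X_pos α)) inf_le_left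
  have := st_n_ge α (K + 1)
  omega

theorem X_pre (α : Set ℕ) : ⌊(10 : ℝ) ^ 10 * X α⌋₊ = 1084101512 := by
  have h1 := (X_spec α).1 10
  have h4 : pre (lim α) 10 = 1084101512 := by
    rw [pre_congr (lim α) base 10 (fun k hk => lim_base α k hk)]; exact pre_base
  rw [h4] at h1
  rw [Nat.floor_eq_iff (by have := X_pos α 1; rw [U] at this; positivity)]
  constructor
  · have := h1.1; rw [div_le_iff₀ (by positivity)] at this; linarith
  · have := h1.2; rw [lt_div_iff₀ (by positivity)] at this; linarith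

theorem X_liouville (α : Set ℕ) : Liouville (X α) := by
  intro k
  set s := st α k with hs
  set m := Mz s k + 2 * (α.indicator 1 k) with hm
  have hn' : (st α (k + 1)).n = s.n + m + 1 := rfl
  have hpre : pre (lim α) (s.n + m + 1) = 10 ^ (m + 1) * pre s.e s.n + 1 := by
    rw [← pre_ext, ← hn']
    refine pre_congr _ _ _ (fun j hj => ?_)
    rw [lim_eq α (k + 1) j hj]
    rfl
  have hx := (X_spec α).1 (s.n + m + 1)
  rw [hpre] at hx
  push_cast at hx
  have hP : (0 : ℝ) < 10 ^ s.n := by positivity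
  have hPQ : (10 : ℝ) ^ (s.n + m + 1) = 10 ^ s.n * 10 ^ (m + 1) := by
    rw [add_assoc, pow_add]
  have hQ : (0 : ℝ) < 10 ^ (m + 1) := by positivity
  set A : ℝ := (pre s.e s.n : ℝ) with hA
  have e1 : ((10 : ℝ) ^ (m + 1) * A + 1) / 10 ^ (s.n + m + 1) =
      A / 10 ^ s.n + 1 / 10 ^ (s.n + m + 1) := by
    rw [hPQ]; field_simp
  have e2 : ((10 : ℝ) ^ (m + 1) * A + 1 + 1) / 10 ^ (s.n + m + 1) =
      A / 10 ^ s.n + 2 / 10 ^ (s.n + m + 1) := by
    rw [hPQ]; field_simp; ring
  rw [e1, e2] at hx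
  have hpos : (0 : ℝ) < 1 / 10 ^ (s.n + m + 1) := by positivity
  have hsn := s.hn
  refine ⟨(pre s.e s.n : ℤ), ((10 : ℤ) ^ s.n), ?_, ?_, ?_⟩
  · exact one_lt_pow₀ (by norm_num) (by omega)
  · push_cast
    rw [← hA]
    intro h
    linarith [hx.1]
  · push_cast
    rw [← hA, abs_of_pos (by linarith [hx.1])]
    have hle : X α - A / 10 ^ s.n < 2 / 10 ^ (s.n + m + 1) := by linarith [hx.2]
    refine hle.trans_le ?_
    rw [← pow_mul, div_le_div_iff₀ (by positivity) (by positivity), one_mul]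
    have hM := Mz_ge s k
    have hexp : s.n * k + 1 ≤ s.n + m + 1 := by omega
    calc (2 : ℝ) * 10 ^ (s.n * k) ≤ 10 * 10 ^ (s.n * k) := by
          apply mul_le_mul_of_nonneg_right (by norm_num) (by positivity)
      _ = 10 ^ (s.n * k + 1) := by rw [pow_succ]; ring
      _ ≤ 10 ^ (s.n + m + 1) := pow_le_pow_right₀ (by norm_num) hexp

theorem st_inj (α β : Set ℕ) (h : lim α = lim β) : ∀ i,
    st α i = st β i ∧ (∀ j < i, j ∈ α ↔ j ∈ β) := by
  intro i
  induction i with
  | zero => exact ⟨rfl, fun j hj => absurd hj (Nat.not_lt_zero _)⟩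
  | succ i ih =>
    obtain ⟨h1, h2⟩ := ih
    have key : ∀ α β : Set ℕ, lim α = lim β → st α i = st β i → i ∈ β → i ∈ α := by
      intro α β h h1 hi
      by_contra hα
      have a1 : (st α (i + 1)).n = (st α i).n + Mz (st α i) i + 1 := by
        show (st α i).n + (Mz (st α i) i + 2 * (α.indicator 1 i)) + 1 = _
        rw [Set.indicator_of_notMem hα]; ring
      have b1 : (st β (i + 1)).n = (st α i).n + Mz (st α i) i + 3 := by
        show (st β i).n + (Mz (st β i) i + 2 * (β.indicator 1 i)) + 1 = _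
        rw [Set.indicator_of_mem hi, h1, Pi.one_apply]; ring
      have a2 := lim_one α i
      rw [h, a1] at a2
      have b2 := lim_eq β (i + 1) ((st α i).n + Mz (st α i) i + 1) (by omega)
      have b3 : (st β (i + 1)).e ((st α i).n + Mz (st α i) i + 1) = 0 := by
        show ext (st β i).e ((st β i).n + (Mz (st β i) i + 2 * (β.indicator 1 i)) + 1)
          ((st α i).n + Mz (st α i) i + 1) = 0
        have b4 : (st β i).n + (Mz (st β i) i + 2 * (β.indicator 1 i)) + 1 =
            (st α i).n + Mz (st α i) i + 3 := b1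
        rw [b4, ext_ne _ _ _ (by omega), h1]
        exact (st β i).zero _ (by omega)
      rw [b2, b3] at a2
      exact absurd a2 (by norm_num)
    have hiff : i ∈ α ↔ i ∈ β := ⟨key β α h.symm h1.symm, key α β h h1⟩
    refine ⟨?_, fun j hj => ?_⟩
    · show nxt (st α i) i (α.indicator 1 i) = nxt (st β i) i (β.indicator 1 i)
      rw [h1]
      congr 1
      by_cases hi : i ∈ α
      · rw [Set.indicator_of_mem hi, Set.indicator_of_mem (hiff.mp hi)]
      · rw [Set.indicator_of_notMem hi, Set.indicator_of_notMem (fun h' => hi (hiff.mpr h'))]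
    · rcases Nat.lt_succ_iff_lt_or_eq.mp hj with h3 | h3
      · exact h2 j h3
      · rw [h3]; exact hiff

/-- There are continuum many self-describing numbers whose decimal expansion begins with
`0.1084101512` and which are Liouville numbers (hence transcendental). -/
theorem result :
    Cardinal.mk {x : ℝ // SelfDescribing x ∧ ⌊(10 : ℝ) ^ 10 * x⌋₊ = 1084101512 ∧
      Transcendental ℤ x ∧ Liouville x} = Cardinal.continuum := by
  apply le_antisymm
  · exact (Cardinal.mk_subtype_le _).trans (le_of_eq Cardinal.mk_real)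
  · rw [← Cardinal.mk_set_nat]
    refine Cardinal.mk_le_of_injective (f := fun α : Set ℕ =>
      ⟨X α, X_self α, X_pre α, (X_liouville α).transcendental, X_liouville α⟩) ?_
    intro α β h
    have h1 : X α = X β := congrArg Subtype.val h
    have h2 : lim α = lim β := by
      rw [← (X_spec α).2, ← (X_spec β).2, h1]
    ext i
    exact (st_inj α β h2 (i + 1)).2 i (Nat.lt_succ_self i)

end Pool.Agent.Results.MP_5b81a6_nt.LiouvilleTrott
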